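import Mathlib

/-!
# Derivations of a field `F = ⊕ F^p T^i` and discrete valuations
-/

set_option autoImplicit false

open WithZero

namespace Pool.Agent.R891.GK

section indep

variable {p : ℕ} [hp : Fact p.Prime] {F : Type} [Field F] [CharP F p]

lemma D_pp (D : Derivation ℤ F F) (h : F) : D (h ^ p) = 0 := by
  rw [Derivation.leibniz_pow]
  simp

lemma D_sum (D : Derivation ℤ F F) {T : F} (hT : D T = 1) (c : ℕ → F) (hc : ∀ i, D (c i) = 0)
    (n : ℕ) : D (∑ i ∈ Finset.range (n + 1), c i * T ^ i) =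
      ∑ i ∈ Finset.range n, (((i + 1 : ℕ) : F) * c (i + 1)) * T ^ i := by
  rw [map_sum, Finset.sum_range_succ']
  have h0 : D (c 0 * T ^ 0) = 0 := by rw [pow_zero, mul_one]; exact hc 0
  rw [h0, add_zero]
  refine Finset.sum_congr rfl fun i _ => ?_
  rw [Derivation.leibniz, hc, Derivation.leibniz_pow, hT]
  simp only [smul_eq_mul, mul_one, mul_zero, add_zero, nsmul_eq_mul, Nat.add_sub_cancel]
  ring

lemma indep (D : Derivation ℤ F F) {T : F} (hT : D T = 1) (n : ℕ) (hn : n ≤ p) (c : ℕ → F)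
    (hc : ∀ i, D (c i) = 0) (h : ∑ i ∈ Finset.range n, c i * T ^ i = 0) : ∀ i < n, c i = 0 := by
  induction n generalizing c with
  | zero => intro i hi; omega
  | succ n ih =>
    have h1 := congrArg D h
    rw [map_zero, D_sum D hT c hc] at h1
    have h2 := ih (by omega) (fun i => ((i + 1 : ℕ) : F) * c (i + 1)) (by
      intro i
      rw [Derivation.leibniz, hc, Derivation.map_natCast]
      simp) h1
    have h3 : ∀ i < n, c (i + 1) = 0 := by
      intro i hi
      have h4 := h2 i hi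
      refine (mul_eq_zero.mp h4).resolve_left ?_
      rw [CharP.cast_eq_zero_iff F p]
      intro h5
      have := Nat.le_of_dvd (by omega) h5
      omega
    intro i hi
    cases i with
    | succ i => exact h3 i (by omega)
    | zero =>
      rw [Finset.sum_range_succ', Finset.sum_eq_zero] at h
      · simpa using h
      · intro i hi
        rw [h3 i (Finset.mem_range.1 hi), zero_mul]

lemma ker_D (D : Derivation ℤ F F) {T : F} (hT : D T = 1)
    (hs : ∀ z : F, ∃ h : ℕ → F, z = ∑ i ∈ Finset.range p, h i ^ p * T ^ i) {x : F} (hx : D x = 0) :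
    ∃ y, x = y ^ p := by
  obtain ⟨h, rfl⟩ := hs x
  obtain ⟨m, hm⟩ : ∃ m, p = m + 1 := ⟨p - 1, by have := hp.out.pos; omega⟩
  have e1 : ∑ i ∈ Finset.range p, h i ^ p * T ^ i = ∑ i ∈ Finset.range (m + 1), h i ^ p * T ^ i := by
    rw [← hm]
  rw [e1] at hx ⊢
  rw [D_sum D hT (fun i => h i ^ p) (fun i => D_pp D (h i))] at hx
  have h2 := indep D hT m (by omega) (fun i => ((i + 1 : ℕ) : F) * h (i + 1) ^ p) (by
      intro i
      rw [Derivation.leibniz, D_pp, Derivation.map_natCast]
      simp) hx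
  refine ⟨h 0, ?_⟩
  rw [Finset.sum_range_succ', Finset.sum_eq_zero]
  · simp
  · intro i hi
    have hi := Finset.mem_range.1 hi
    have h4 := h2 i hi
    have h5 := (mul_eq_zero.mp h4).resolve_left (by
      rw [CharP.cast_eq_zero_iff F p]
      intro h5
      have := Nat.le_of_dvd (by omega) h5
      omega)
    rw [h5, zero_mul]

end indep

section valsum

variable {F : Type} [Field F] (v : Valuation F ℤᵐ⁰)

lemma val_le_sum {ι : Type*} [DecidableEq ι] (s : Finset ι) (f : ι → F)
    (hd : ∀ i ∈ s, ∀ j ∈ s, f i ≠ 0 → v (f i) = v (f j) → i = j) :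
    ∀ i ∈ s, v (f i) ≤ v (∑ j ∈ s, f j) := by
  intro i hi
  obtain ⟨i₀, hi₀, hmax⟩ := Finset.exists_max_image s (fun i => v (f i)) ⟨i, hi⟩
  by_cases h0 : f i₀ = 0
  · have : v (f i) ≤ 0 := by
      have := hmax i hi
      simpa [h0] using this
    exact this.trans zero_le
  · refine (hmax i hi).trans ?_
    have h1 : v (∑ j ∈ s.erase i₀, f j) < v (f i₀) := by
      refine Valuation.map_sum_lt v ((Valuation.ne_zero_iff v).mpr h0) ?_
      intro j hj
      rw [Finset.mem_erase] at hj
      refine lt_of_le_of_ne (hmax j hj.2) ?_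
      intro h
      exact hj.1 (hd i₀ hi₀ j hj.2 h0 h.symm).symm
    rw [← Finset.add_sum_erase s f hi₀, Valuation.map_add_eq_of_lt_left v h1]

end valsum

section unif

variable {p : ℕ} [hp : Fact p.Prime] {F : Type} [Field F] [CharP F p] (v : Valuation F ℤᵐ⁰)

lemma val_term {π : F} (hπ : v π = exp (-1 : ℤ)) {g : F} (hg : g ≠ 0) (i : ℕ) :
    v (g ^ p * π ^ i) = exp ((p : ℤ) * log (v g) - i) := by
  have h1 : v g ≠ 0 := (Valuation.ne_zero_iff v).mpr hg
  rw [map_mul, map_pow, map_pow, hπ]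
  conv_lhs => rw [← exp_log h1]
  rw [← exp_nsmul, ← exp_nsmul, ← exp_add]
  congr 1
  simp
  ring

lemma val_distinct {π : F} (hπ : v π = exp (-1 : ℤ)) (g : ℕ → F) :
    ∀ i ∈ Finset.range p, ∀ j ∈ Finset.range p, g i ^ p * π ^ i ≠ 0 →
      v (g i ^ p * π ^ i) = v (g j ^ p * π ^ j) → i = j := by
  intro i hi j hj h0 h
  have hi := Finset.mem_range.1 hi
  have hj := Finset.mem_range.1 hj
  have hgi : g i ≠ 0 := by
    intro h1; apply h0; rw [h1, zero_pow hp.out.ne_zero, zero_mul]
  have hgj : g j ≠ 0 := by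
    intro h1
    rw [h1, zero_pow hp.out.ne_zero, zero_mul, map_zero] at h
    exact h0 ((Valuation.zero_iff v).mp h)
  rw [val_term v hπ hgi, val_term v hπ hgj, exp_inj] at h
  have h2 : ((i : ℤ) - j) = p * (log (v (g i)) - log (v (g j))) := by linarith
  have h3 : (p : ℤ) ∣ (i : ℤ) - j := ⟨_, h2⟩
  have h4 : (i : ℤ) - j = 0 := by
    apply Int.eq_zero_of_abs_lt_dvd h3
    rw [abs_lt]
    constructor <;> omega
  omega

/-- expansion in powers of the uniformizer -/
lemma exists_exp {T : F}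
    (hs : ∀ z : F, ∃ h : ℕ → F, z = ∑ i ∈ Finset.range p, h i ^ p * T ^ i)
    {π : F} (hπ : v π = exp (-1 : ℤ)) (x : F) :
    ∃ g : ℕ → F, x = ∑ i ∈ Finset.range p, g i ^ p * π ^ i := by
  classical
  have hπ0 : π ≠ 0 := by
    rintro rfl
    rw [map_zero] at hπ
    exact exp_ne_zero hπ.symm
  let K := (frobenius F p).fieldRange
  have hK : ∀ c : K, ∃ y : F, y ^ p = (c : F) := by
    intro c
    obtain ⟨y, hy⟩ := c.2
    exact ⟨y, hy⟩
  -- the powers of `T` span
  have hspan : Submodule.span K (Set.range fun i : Fin p => T ^ (i : ℕ)) = ⊤ := by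
    rw [Submodule.eq_top_iff']
    intro z
    obtain ⟨h, hz⟩ := hs z
    rw [Submodule.mem_span_range_iff_exists_fun]
    refine ⟨fun i => ⟨h i ^ p, ⟨h i, rfl⟩⟩, ?_⟩
    rw [hz, ← Fin.sum_univ_eq_sum_range (fun i => h i ^ p * T ^ i)]
    rfl
  have hfin : Module.Finite K F := ⟨⟨Finset.univ.image fun i : Fin p => T ^ (i : ℕ), by
    rw [Finset.coe_image, Finset.coe_univ, Set.image_univ, hspan]⟩⟩
  have hle : Module.finrank K F ≤ p := by
    have := finrank_range_le_card (R := K) (fun i : Fin p => T ^ (i : ℕ))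
    rw [Set.finrank, hspan, finrank_top, Fintype.card_fin] at this
    exact this
  have hli : LinearIndependent K (fun i : Fin p => π ^ (i : ℕ)) := by
    rw [Fintype.linearIndependent_iff]
    intro c hc
    choose y hy using hK
    set g : ℕ → F := fun i => if h : i < p then y (c ⟨i, h⟩) else 0 with hg
    have e1 : ∑ i ∈ Finset.range p, g i ^ p * π ^ i = 0 := by
      rw [← Fin.sum_univ_eq_sum_range (fun i => g i ^ p * π ^ i), ← hc]
      refine Finset.sum_congr rfl fun i _ => ?_
      rw [hg]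
      simp only [Fin.is_lt, dif_pos, Fin.eta, hy]
      rfl
    have h2 := val_le_sum v (Finset.range p) (fun i => g i ^ p * π ^ i) (val_distinct v hπ g)
    intro i
    have h3 := h2 i (Finset.mem_range.2 i.2)
    rw [e1, map_zero, le_zero_iff, Valuation.zero_iff] at h3
    have h4 : g i ^ p = 0 := (mul_eq_zero.mp h3).resolve_right (pow_ne_zero _ hπ0)
    have h5 : g i ^ p = c i := by
      rw [hg]
      simp only [Fin.is_lt, dif_pos, Fin.eta, hy]
    apply Subtype.ext
    rw [← h5, h4]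
    rfl
  have hcard : Fintype.card (Fin p) = Module.finrank K F := by
    have := hli.fintype_card_le_finrank
    rw [Fintype.card_fin] at this ⊢
    omega
  have hspan2 := hli.span_eq_top_of_card_eq_finrank' hcard
  have hx : x ∈ Submodule.span K (Set.range fun i : Fin p => π ^ (i : ℕ)) := by
    rw [hspan2]; trivial
  rw [Submodule.mem_span_range_iff_exists_fun] at hx
  obtain ⟨c, hc⟩ := hx
  choose y hy using hK
  refine ⟨fun i => if h : i < p then y (c ⟨i, h⟩) else 0, ?_⟩
  rw [← Fin.sum_univ_eq_sum_range (fun i => (if h : i < p then y (c ⟨i, h⟩) else 0) ^ p * π ^ i),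
    ← hc]
  refine Finset.sum_congr rfl fun i _ => ?_
  simp only [Fin.is_lt, dif_pos, Fin.eta, hy]
  rfl

/-- the derivative of the uniformizer is not zero -/
lemma D_unif_ne (D : Derivation ℤ F F) {T : F} (hT : D T = 1)
    (hs : ∀ z : F, ∃ h : ℕ → F, z = ∑ i ∈ Finset.range p, h i ^ p * T ^ i)
    {π : F} (hπ : v π = exp (-1 : ℤ)) : D π ≠ 0 := by
  intro h
  obtain ⟨y, rfl⟩ := ker_D D hT hs h
  have hy : y ≠ 0 := by
    rintro rfl
    rw [zero_pow hp.out.ne_zero, map_zero] at hπ
    exact exp_ne_zero hπ.symm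
  have h1 : v y ≠ 0 := (Valuation.ne_zero_iff v).mpr hy
  rw [map_pow, ← exp_log h1, ← exp_nsmul, exp_inj] at hπ
  have h2 : (p : ℤ) * log (v y) = -1 := by simpa using hπ
  have h3 : (p : ℤ) ∣ 1 := ⟨-log (v y), by linarith⟩
  have h4 := Int.le_of_dvd one_pos h3
  have := hp.out.two_le
  omega

/-- `D / D π` preserves the valuation ring -/
lemma D_div (D : Derivation ℤ F F) {T : F} (hT : D T = 1)
    (hs : ∀ z : F, ∃ h : ℕ → F, z = ∑ i ∈ Finset.range p, h i ^ p * T ^ i)
    {π : F} (hπ : v π = exp (-1 : ℤ)) {x : F} (hx : v x ≤ 1) : v (D x / D π) ≤ 1 := by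
  have hDπ := D_unif_ne v D hT hs hπ
  obtain ⟨g, hg⟩ := exists_exp v hs hπ x
  have h1 := val_le_sum v (Finset.range p) (fun i => g i ^ p * π ^ i) (val_distinct v hπ g)
  rw [← hg] at h1
  have h2 : D x / D π = ∑ i ∈ Finset.range p, (i : F) * (g i ^ p * π ^ (i - 1)) := by
    rw [div_eq_iff hDπ]
    conv_lhs => rw [hg]
    rw [map_sum, Finset.sum_mul]
    refine Finset.sum_congr rfl fun i _ => ?_
    rw [Derivation.leibniz, D_pp (p := p) D (g i), Derivation.leibniz_pow]
    simp only [smul_eq_mul, mul_zero, add_zero, nsmul_eq_mul]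
    ring
  rw [h2]
  refine Valuation.map_sum_le v fun i hi => ?_
  have hi' := Finset.mem_range.1 hi
  have hnat : v (i : F) ≤ 1 := by
    have : ∀ n : ℕ, v (n : F) ≤ 1 := by
      intro n
      induction n with
      | zero => simp
      | succ n ih =>
        push_cast
        exact Valuation.map_add_le v ih (by simp)
    exact this i
  rw [map_mul]
  refine mul_le_one' hnat ?_
  by_cases hg0 : g i = 0
  · rw [hg0, zero_pow hp.out.ne_zero, zero_mul, map_zero]
    exact zero_le
  · have h3 := (h1 i hi).trans hx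
    have h3' : v (g i ^ p * π ^ i) ≤ 1 := h3
    rw [val_term v hπ hg0, ← exp_zero, exp_le_exp] at h3'
    rw [val_term v hπ hg0, ← exp_zero, exp_le_exp]
    by_cases hi0 : i = 0
    · subst hi0
      simpa using h3'
    · have h4 : log (v (g i)) ≤ 0 := by
        by_contra hcon
        push Not at hcon
        have h5 : (1 : ℤ) ≤ log (v (g i)) := hcon
        have h6 : (p : ℤ) * 1 ≤ p * log (v (g i)) := by
          apply mul_le_mul_of_nonneg_left h5; positivity
        have h7 : (i : ℤ) < p := by exact_mod_cast hi'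
        linarith
      have h5 : (p : ℤ) * log (v (g i)) ≤ 0 := mul_nonpos_of_nonneg_of_nonpos (by positivity) h4
      have h6 : (0 : ℤ) ≤ ((i - 1 : ℕ) : ℤ) := by positivity
      linarith

/-- the order of `α` is divisible by `p` -/
theorem dvd_order (D : Derivation ℤ F F) {T : F} (hT : D T = 1)
    (hs : ∀ z : F, ∃ h : ℕ → F, z = ∑ i ∈ Finset.range p, h i ^ p * T ^ i)
    {π : F} (hπ : v π = exp (-1 : ℤ)) {z α : F} (hα : α ≠ 0) (hz : D α = z * α)
    (hv : v (z / D π) ≤ 1) : (p : ℤ) ∣ log (v α) := by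
  have hDπ := D_unif_ne v D hT hs hπ
  have hπ0 : π ≠ 0 := by
    rintro rfl
    rw [map_zero] at hπ
    exact exp_ne_zero hπ.symm
  set m : ℤ := -log (v α) with hm
  have hvα : v α ≠ 0 := (Valuation.ne_zero_iff v).mpr hα
  set u : F := α * π ^ (-m) with hu
  have hu0 : u ≠ 0 := mul_ne_zero hα (zpow_ne_zero _ hπ0)
  have hαu : α = u * π ^ m := by
    rw [hu, mul_assoc, ← zpow_add₀ hπ0]
    simp
  have hvu : v u = 1 := by
    rw [hu, map_mul, map_zpow₀, hπ, ← exp_zsmul, ← exp_log hvα, ← exp_add, hm, ← exp_zero]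
    congr 1
    simp
  have hDα : D α = (D u / u + m * D π / π) * α := by
    conv_lhs => rw [hαu]
    rw [Derivation.leibniz, Derivation.leibniz_zpow]
    have e1 : π ^ m = π ^ (m - 1) * π := by
      rw [← zpow_add_one₀ hπ0]; congr 1; ring
    conv_rhs => rw [hαu]
    simp only [smul_eq_mul, zsmul_eq_mul]
    rw [e1]
    field_simp
    ring
  have hzeq : z = D u / u + m * D π / π := mul_right_cancel₀ hα (hz.symm.trans hDα)
  by_contra hnd
  have hpm : ¬ (p : ℤ) ∣ m := by
    rw [hm, dvd_neg]; exact hnd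
  have hmF : ((m : ℤ) : F) ≠ 0 := by
    rw [Ne, CharP.intCast_eq_zero_iff F p]
    exact hpm
  have hvm : v ((m : ℤ) : F) = 1 := by
    have h1 : ((m : ℤ) : F) ^ (p - 1) = 1 := by
      have h2 : ((m : ℤ) : ZMod p) ≠ 0 := by
        rw [Ne, ZMod.intCast_zmod_eq_zero_iff_dvd]
        exact hpm
      have h3 := ZMod.pow_card_sub_one_eq_one h2
      have h4 := congrArg (ZMod.castHom (dvd_refl p) F) h3
      simpa using h4
    have h5 := congrArg v h1
    rw [map_pow, map_one] at h5
    have hp1 : p - 1 ≠ 0 := by have := hp.out.two_le; omega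
    exact (pow_eq_one_iff_of_nonneg zero_le hp1).mp h5
  have h1 : ((m : ℤ) : F) / π = z / D π - D u / D π / u := by
    rw [hzeq]
    field_simp
    ring
  have h2 : v (((m : ℤ) : F) / π) ≤ 1 := by
    rw [h1]
    refine Valuation.map_sub_le v hv ?_
    rw [map_div₀, hvu, div_one]
    exact D_div v D hT hs hπ hvu.le
  rw [map_div₀, hvm, hπ, one_div, ← exp_neg, neg_neg, ← exp_zero, exp_le_exp] at h2
  omega

end unif

end Pool.Agent.R891.GK
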