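import Pool.Agent.R891.GK.E2
import Pool.Agent.R891.GK.E3

/-!
# Task E: regular logarithmic differentials come from `p`-th powers of ideals
-/

set_option autoImplicit false

open Polynomial WithZero IsDedekindDomain

namespace Pool.Agent.R891.GK

open Pool.Agent.R360.GK

lemma vmul_lt {x y : ℤᵐ⁰} (hx : x ≤ 1) (hy : y < 1) : x * y < 1 :=
  (mul_le_of_le_one_left' hx).trans_lt hy

theorem taskE : TaskE := by
  intro Fq _ _ p _ _ P _ hPm F _ _ _ _ lam hcyc D hT hs z α hα hz hr
  have hPirr : Irreducible P := Fact.out
  have hP0 : P ≠ 0 := hPirr.ne_zero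
  have hfd := finDim hP0 hcyc
  have hsep := algSep hP0 hcyc
  have hDed : IsDedekindDomain (integralClosure Fq[X] F) :=
    integralClosure.isDedekindDomain Fq[X] (RatFunc Fq) F
  have hFrac : IsFractionRing (integralClosure Fq[X] F) F :=
    integralClosure.isFractionRing_of_finite_extension (RatFunc Fq) F
  have hchar : CharP F p :=
    charP_of_injective_ringHom (f := (algebraMap Fq[X] F).comp C) (RingHom.injective _) p
  have hp : p.Prime := Fact.out
  have hlam := lam_int hPm hcyc
  have main : ∀ v : HeightOneSpectrum (integralClosure Fq[X] F),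
      (p : ℤ) ∣ log (v.valuation F α) := by
    intro v
    obtain ⟨π, hπ⟩ := v.valuation_exists_uniformizer F
    refine dvd_order (v.valuation F) D hT hs hπ hα hz ?_
    have hint : ∀ x : F, IsIntegral Fq[X] x → v.valuation F x ≤ 1 := fun x hx =>
      v.valuation_le_one (K := F) ⟨x, hx⟩
    have hA : ∀ a : Fq[X], v.valuation F (algebraMap Fq[X] F a) ≤ 1 := fun a =>
      hint _ isIntegral_algebraMap
    obtain ⟨r, hr, hrz⟩ := hr
    have hrint : v.valuation F r ≤ 1 := hint r (adjoin_le_integralClosure hlam hr)
    have hDπ := D_unif_ne (v.valuation F) D hT hs hπ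
    have hPF : algebraMap Fq[X] F P ≠ 0 := by
      rw [IsScalarTower.algebraMap_apply Fq[X] (RatFunc Fq) F]
      rw [Ne, map_eq_zero_iff _ (algebraMap (RatFunc Fq) F).injective,
        map_eq_zero_iff _ (IsFractionRing.injective Fq[X] (RatFunc Fq))]
      exact hP0
    have hz2 : z = lam * r / algebraMap Fq[X] F P := by
      rw [eq_div_iff hPF, hrz]
    have hlamv : v.valuation F lam ≤ 1 := hint lam hlam
    have hDint : ∀ x : F, v.valuation F x ≤ 1 → v.valuation F (D x / D π) ≤ 1 := fun x hx =>
      D_div (v.valuation F) D hT hs hπ hx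
    have hd : 0 < P.natDegree := hPirr.natDegree_pos
    by_cases hPv : v.valuation F (algebraMap Fq[X] F P) = 1
    · have h1 : z / D π = lam * r / algebraMap Fq[X] F P * (D (algebraMap Fq[X] F X) / D π) := by
        rw [hT, hz2]; ring
      rw [h1, map_mul, map_div₀, hPv, div_one, map_mul]
      exact mul_le_one' (mul_le_one' hlamv hrint) (hDint _ (hA X))
    · have hPv' : v.valuation F (algebraMap Fq[X] F P) < 1 := lt_of_le_of_ne (hA P) hPv
      have hq : 1 < Fintype.card Fq := Fintype.one_lt_card
      -- `lam` has positive order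
      have hlam1 : v.valuation F lam < 1 := by
        refine lt_of_le_of_ne hlamv fun hcon => ?_
        have h1 := torsion_div hcyc
        obtain ⟨e, he⟩ : ∃ e, P.natDegree = e + 1 := ⟨P.natDegree - 1, by omega⟩
        rw [he, Finset.sum_range_succ] at h1
        have h2 : ca Fq P (e + 1) = 1 := by
          rw [← he, ca_self, hPm.leadingCoeff, C_1]
        rw [h2, map_one, one_mul, ← add_assoc] at h1
        have h3 : lam ^ (Fintype.card Fq ^ (e + 1) - 1) = -(algebraMap Fq[X] F P +
            ∑ i ∈ Finset.range e, algebraMap Fq[X] F (ca Fq P (i + 1)) *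
              lam ^ (Fintype.card Fq ^ (i + 1) - 1)) := by
          linear_combination h1
        have h4 := congrArg (v.valuation F) h3
        rw [map_pow, hcon, one_pow, Valuation.map_neg] at h4
        have h5 : v.valuation F (algebraMap Fq[X] F P +
            ∑ i ∈ Finset.range e, algebraMap Fq[X] F (ca Fq P (i + 1)) *
              lam ^ (Fintype.card Fq ^ (i + 1) - 1)) < 1 := by
          refine Valuation.map_add_lt _ hPv' ?_
          refine Valuation.map_sum_lt _ one_ne_zero fun i hi => ?_
          rw [map_mul, map_pow, hcon, one_pow, mul_one]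
          obtain ⟨c, hc⟩ := dvd_ca Fq P hPirr (i + 1) (by
            have := Finset.mem_range.1 hi; omega)
          rw [hc, map_mul, map_mul]
          rw [mul_comm]
          exact vmul_lt (hA c) hPv'
        rw [← h4] at h5
        exact lt_irrefl _ h5
      have hlampow : ∀ k : ℕ, 0 < k → v.valuation F (lam ^ k) < 1 := by
        intro k hk
        rw [map_pow]
        exact pow_lt_one₀ zero_le hlam1 hk.ne'
      -- the unit
      obtain ⟨w, hw⟩ : ∃ w, w = algebraMap Fq[X] F (derivative P) +
          ∑ i ∈ Finset.range P.natDegree, algebraMap Fq[X] F (derivative (ca Fq P (i + 1))) *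
            lam ^ (Fintype.card Fq ^ (i + 1) - 1) := ⟨_, rfl⟩
      have hP' : v.valuation F (algebraMap Fq[X] F (derivative P)) = 1 := by
        have hsP : P.Separable := PerfectField.separable_of_irreducible hPirr
        obtain ⟨a, b, hab⟩ := hsP
        refine le_antisymm (hA _) ?_
        by_contra hcon
        push Not at hcon
        have h1 := congrArg (fun x => v.valuation F (algebraMap Fq[X] F x)) hab
        simp only [map_add, map_mul, map_one] at h1
        have h2 : v.valuation F (algebraMap Fq[X] F a * algebraMap Fq[X] F P +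
            algebraMap Fq[X] F b * algebraMap Fq[X] F (derivative P)) < 1 := by
          refine Valuation.map_add_lt _ ?_ ?_
          · rw [map_mul]
            exact vmul_lt (hA a) hPv'
          · rw [map_mul]
            exact vmul_lt (hA b) hcon
        rw [h1] at h2
        exact lt_irrefl _ h2
      have hwv : v.valuation F w = 1 := by
        rw [hw, Valuation.map_add_eq_of_lt_left, hP']
        rw [hP']
        refine Valuation.map_sum_lt _ one_ne_zero fun i hi => ?_
        rw [map_mul]
        refine vmul_lt (hA _) (hlampow _ ?_)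
        have : Fintype.card Fq ≤ Fintype.card Fq ^ (i + 1) := Nat.le_self_pow (by omega) _
        omega
      have hw0 : w ≠ 0 := by
        rintro rfl
        rw [map_zero] at hwv
        exact zero_ne_one hwv
      have hDl := D_lam D p hT hcyc
      rw [← hw] at hDl
      have h1 : z / D π = -(r / w) * (D lam / D π) := by
        rw [hz2]
        have h2 : lam = -(algebraMap Fq[X] F P * D lam) / w := by
          rw [eq_div_iff hw0, hDl]; ring
        rw [div_div, div_eq_iff (mul_ne_zero hPF hDπ)]
        rw [neg_mul, neg_mul]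
        have h3 : r / w * (D lam / D π) * (algebraMap Fq[X] F P * D π) =
            r * (algebraMap Fq[X] F P * D lam) / w := by
          field_simp
        rw [h3, hDl]
        field_simp
      rw [h1, map_mul, Valuation.map_neg, map_div₀, hwv, div_one]
      exact mul_le_one' hrint (hDint lam hlamv)
  -- the ideal
  obtain ⟨a, b, hb, hab⟩ := IsFractionRing.div_surjective (A := integralClosure Fq[X] F) α
  have hb0 : b ≠ 0 := nonZeroDivisors.ne_zero hb
  have hbF : (b : F) ≠ 0 := by
    intro h; apply hb0; exact Subtype.ext h
  have ha0 : a ≠ 0 := by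
    rintro rfl
    apply hα
    rw [← hab, map_zero, zero_div]
  have hab' : (a : F) / (b : F) = α := hab
  refine ⟨(b : F), hbF, a * b ^ (p - 1), ?_⟩
  have hβ : ((a * b ^ (p - 1) : integralClosure Fq[X] F) : F) = α * (b : F) ^ p := by
    push_cast
    rw [← hab']
    have : (b : F) ^ p = (b : F) ^ (p - 1) * b := by
      rw [← pow_succ]
      congr 1
      have := hp.pos
      omega
    rw [this]
    field_simp
  have hβ0 : a * b ^ (p - 1) ≠ 0 := mul_ne_zero ha0 (pow_ne_zero _ hb0)
  have hspan : (Ideal.span {a * b ^ (p - 1)} : Ideal (integralClosure Fq[X] F)) ≠ 0 := by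
    rw [Ne, Ideal.zero_eq_bot, Ideal.span_singleton_eq_bot]
    exact hβ0
  have hpow : ∃ c : Associates (Ideal (integralClosure Fq[X] F)),
      Associates.mk (Ideal.span {a * b ^ (p - 1)}) = c ^ p := by
    classical
    refine Associates.is_pow_of_dvd_count (by rw [Ne, Associates.mk_eq_zero]; exact hspan) ?_
    intro I hI
    obtain ⟨I, rfl⟩ := Associates.mk_surjective I
    rw [Associates.irreducible_mk] at hI
    have hIp : Prime I := hI.prime
    let v : HeightOneSpectrum (integralClosure Fq[X] F) :=
      ⟨I, Ideal.isPrime_of_prime hIp, hIp.ne_zero⟩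
    have h1 := v.intValuation_if_neg hβ0
    have h2 : v.valuation F ((a * b ^ (p - 1) : integralClosure Fq[X] F) : F) =
        exp (-((Associates.mk v.asIdeal).count
          (Associates.mk (Ideal.span {a * b ^ (p - 1)})).factors : ℤ)) :=
      (v.valuation_of_algebraMap (K := F) (a * b ^ (p - 1))).trans h1
    rw [hβ, map_mul, map_pow] at h2
    have h4 := congrArg log h2
    have hvα : v.valuation F α ≠ 0 := (Valuation.ne_zero_iff _).mpr hα
    have hvb : v.valuation F (b : F) ≠ 0 := (Valuation.ne_zero_iff _).mpr hbF
    rw [log_mul hvα (pow_ne_zero _ hvb), log_pow, log_exp] at h4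
    obtain ⟨k, hk⟩ := main v
    have h5 : (p : ℤ) ∣ (((Associates.mk v.asIdeal).count
        (Associates.mk (Ideal.span {a * b ^ (p - 1)})).factors : ℕ) : ℤ) := by
      refine ⟨-(k + log (v.valuation F (b : F))), ?_⟩
      rw [hk] at h4
      simp only [nsmul_eq_mul] at h4
      linarith
    exact_mod_cast h5
  obtain ⟨c, hc⟩ := hpow
  obtain ⟨J, rfl⟩ := Associates.mk_surjective c
  refine ⟨J, hβ, ?_⟩
  rw [← Associates.mk_pow, Associates.mk_eq_mk_iff_associated, associated_iff_eq] at hc
  exact hc

end Pool.Agent.R891.GK
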