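import Pool.Agent.R360.GK.Tasks

/-!
# Task I: a place over infinity
-/

set_option autoImplicit false

open Polynomial WithZero IsDedekindDomain

namespace Pool.Agent.R891.GK

open Pool.Agent.R360.GK

section place

variable (Fq : Type) [Field Fq]

/-- the ring `Fq[1/T]` -/
noncomputable abbrev Ainf : Subalgebra Fq (RatFunc Fq) := Algebra.adjoin Fq {(RatFunc.X : RatFunc Fq)⁻¹}

instance : IsPrincipalIdealRing (Ainf Fq) := by
  have hrange : Ainf Fq = (aeval (R := Fq) (RatFunc.X : RatFunc Fq)⁻¹).range :=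
    Algebra.adjoin_singleton_eq_range_aeval _ _
  rw [hrange]
  exact IsPrincipalIdealRing.of_surjective
    (aeval (R := Fq) (RatFunc.X : RatFunc Fq)⁻¹).rangeRestrict
    (AlgHom.rangeRestrict_surjective _)

lemma adj_top : IntermediateField.adjoin Fq {(RatFunc.X : RatFunc Fq)⁻¹} = ⊤ := by
  have hX : (RatFunc.X : RatFunc Fq) ∈ IntermediateField.adjoin Fq {(RatFunc.X : RatFunc Fq)⁻¹} := by
    have h := IntermediateField.mem_adjoin_simple_self Fq (RatFunc.X : RatFunc Fq)⁻¹
    have h2 := inv_mem h
    rwa [inv_inv] at h2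
  have hpol : ∀ f : Fq[X], algebraMap Fq[X] (RatFunc Fq) f ∈
      IntermediateField.adjoin Fq {(RatFunc.X : RatFunc Fq)⁻¹} := by
    intro f
    induction f using Polynomial.induction_on' with
    | add a b ha hb => rw [map_add]; exact add_mem ha hb
    | monomial n c =>
      rw [← C_mul_X_pow_eq_monomial, map_mul, map_pow, RatFunc.algebraMap_X]
      refine mul_mem ?_ (pow_mem hX n)
      rw [RatFunc.algebraMap_C]
      exact IntermediateField.algebraMap_mem _ c
  rw [eq_top_iff]
  intro z _
  rw [← RatFunc.num_div_denom z]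
  exact div_mem (hpol _) (hpol _)

instance : IsFractionRing (Ainf Fq) (RatFunc Fq) := by
  refine IsFractionRing.of_field (Ainf Fq) (RatFunc Fq) fun z => ?_
  have hz : z ∈ IntermediateField.adjoin Fq {(RatFunc.X : RatFunc Fq)⁻¹} := by
    rw [adj_top]; trivial
  rw [IntermediateField.mem_adjoin_simple_iff] at hz
  obtain ⟨r, s, h⟩ := hz
  have hmem : ∀ r : Fq[X], aeval (RatFunc.X : RatFunc Fq)⁻¹ r ∈ Ainf Fq := by
    intro r
    unfold Ainf
    rw [Algebra.adjoin_singleton_eq_range_aeval]
    exact ⟨r, rfl⟩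
  exact ⟨⟨_, hmem r⟩, ⟨_, hmem s⟩, h⟩

variable (F : Type) [Field F] [Algebra (RatFunc Fq) F]
  [FiniteDimensional (RatFunc Fq) F] [Algebra.IsSeparable (RatFunc Fq) F]

/-- there is a place over infinity -/
theorem exists_place : ∃ v : Valuation F ℤᵐ⁰,
    v (algebraMap (RatFunc Fq) F RatFunc.X⁻¹) < 1 ∧
    ∀ c : Fq, v (algebraMap (RatFunc Fq) F (RatFunc.C c)) ≤ 1 := by
  classical
  have hDed : IsDedekindDomain (integralClosure (Ainf Fq) F) :=
    integralClosure.isDedekindDomain (Ainf Fq) (RatFunc Fq) F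
  have hFrac : IsFractionRing (integralClosure (Ainf Fq) F) F :=
    integralClosure.isFractionRing_of_finite_extension (RatFunc Fq) F
  set t : Ainf Fq := ⟨(RatFunc.X : RatFunc Fq)⁻¹, Algebra.subset_adjoin rfl⟩ with ht
  set t' : integralClosure (Ainf Fq) F := algebraMap (Ainf Fq) _ t with ht'
  have ht'F : (t' : F) = algebraMap (RatFunc Fq) F RatFunc.X⁻¹ := rfl
  have htne : t' ≠ 0 := by
    intro h
    have h1 : (t' : F) = 0 := by rw [h]; rfl
    rw [ht'F, map_eq_zero_iff _ (algebraMap (RatFunc Fq) F).injective, inv_eq_zero] at h1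
    exact RatFunc.X_ne_zero h1
  have hnu : ¬ IsUnit t' := by
    intro hu
    obtain ⟨s, hs⟩ := hu.exists_right_inv
    have h1 : (s : F) = algebraMap (RatFunc Fq) F RatFunc.X := by
      have h2 := congrArg (fun x : integralClosure (Ainf Fq) F => (x : F)) hs
      have h3 : (t' : F) * (s : F) = 1 := h2
      rw [ht'F, map_inv₀] at h3
      have h4 : algebraMap (RatFunc Fq) F RatFunc.X ≠ 0 := by
        rw [Ne, map_eq_zero_iff _ (algebraMap (RatFunc Fq) F).injective]
        exact RatFunc.X_ne_zero
      field_simp at h3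
      exact h3
    have h2 : IsIntegral (Ainf Fq) (algebraMap (RatFunc Fq) F RatFunc.X) := by
      rw [← h1]; exact s.2
    have h3 : IsIntegral (Ainf Fq) (RatFunc.X : RatFunc Fq) :=
      (isIntegral_algebraMap_iff (algebraMap (RatFunc Fq) F).injective).mp h2
    -- contradiction with the valuation at infinity
    let w := RatFunc.inftyValuation Fq
    have hle : ∀ a : RatFunc Fq, a ∈ Algebra.adjoin Fq {(RatFunc.X : RatFunc Fq)⁻¹} → w a ≤ 1 := by
      intro a ha
      induction ha using Algebra.adjoin_induction with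
      | mem x hx =>
        rw [Set.mem_singleton_iff] at hx
        rw [hx, ← one_div]
        change RatFunc.inftyValuation Fq (1 / RatFunc.X) ≤ 1
        rw [RatFunc.inftyValuation.X_inv, ← exp_zero, exp_le_exp]
        norm_num
      | algebraMap c =>
        by_cases hc : c = 0
        · rw [hc, map_zero, map_zero]; exact zero_le
        · have := RatFunc.inftyValuation.C Fq hc
          change RatFunc.inftyValuation Fq (algebraMap Fq (RatFunc Fq) c) ≤ 1
          have h5 : algebraMap Fq (RatFunc Fq) c = RatFunc.C c := rfl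
          rw [h5, this]
      | add x y _ _ hx hy => exact w.map_add_le hx hy
      | mul x y _ _ hx hy => rw [map_mul]; exact mul_le_one' hx hy
    obtain ⟨f, hf, hfx⟩ := h3
    have h4 : f.natDegree ≠ 0 := by
      intro h0
      have := hf.natDegree_eq_zero.mp h0
      rw [this] at hfx
      simp at hfx
    rw [eval₂_eq_sum_range, Finset.sum_range_succ] at hfx
    have h5 : w ((algebraMap (Ainf Fq) (RatFunc Fq)) (f.coeff f.natDegree) *
        RatFunc.X ^ f.natDegree) = exp (f.natDegree : ℤ) := by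
      rw [hf.coeff_natDegree, map_one, one_mul, map_pow]
      change (RatFunc.inftyValuation Fq RatFunc.X) ^ _ = _
      rw [RatFunc.inftyValuation.X, ← exp_nsmul]
      simp
    have h6 : w (∑ i ∈ Finset.range f.natDegree, (algebraMap (Ainf Fq) (RatFunc Fq)) (f.coeff i) *
        RatFunc.X ^ i) < exp (f.natDegree : ℤ) := by
      refine Valuation.map_sum_lt _ (exp_ne_zero) fun i hi => ?_
      rw [map_mul, map_pow]
      have h7 : w RatFunc.X = exp 1 := RatFunc.inftyValuation.X Fq
      rw [h7, ← exp_nsmul]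
      refine (mul_le_of_le_one_left' (hle _ (f.coeff i).2)).trans_lt ?_
      rw [exp_lt_exp]
      have := Finset.mem_range.1 hi
      simpa using this
    have h7 := Valuation.map_add_eq_of_lt_right w (h6.trans_eq h5.symm)
    rw [hfx, map_zero, h5] at h7
    exact exp_ne_zero h7.symm
  obtain ⟨m, hm, htm⟩ := exists_max_ideal_of_mem_nonunits hnu
  have hmne : m ≠ ⊥ := by
    rintro rfl
    exact htne (by simpa using htm)
  let V : HeightOneSpectrum (integralClosure (Ainf Fq) F) := ⟨m, hm.isPrime, hmne⟩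
  refine ⟨V.valuation F, ?_, ?_⟩
  · rw [← ht'F]
    exact (V.valuation_lt_one_iff_mem (K := F) t').mpr htm
  · intro c
    have h1 : IsIntegral (Ainf Fq) (algebraMap (RatFunc Fq) F (RatFunc.C c)) := by
      have h2 : (RatFunc.C c : RatFunc Fq) ∈ Ainf Fq := (Ainf Fq).algebraMap_mem c
      have h3 : algebraMap (RatFunc Fq) F (RatFunc.C c) = algebraMap (Ainf Fq) F ⟨_, h2⟩ := rfl
      rw [h3]
      exact isIntegral_algebraMap
    exact V.valuation_le_one (K := F) ⟨_, h1⟩

end place

section main

/-- values of polynomials at a place over infinity -/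
lemma val_poly {Fq : Type} [Field Fq] {F : Type} [Field F] [Algebra Fq[X] F]
    [Algebra (RatFunc Fq) F] [IsScalarTower Fq[X] (RatFunc Fq) F] (v : Valuation F ℤᵐ⁰)
    (hv : v (algebraMap (RatFunc Fq) F RatFunc.X⁻¹) < 1)
    (hc : ∀ c : Fq, v (algebraMap (RatFunc Fq) F (RatFunc.C c)) ≤ 1) (a : Fq[X])
    (ha : v (algebraMap Fq[X] F a) ≤ 1) : a.natDegree = 0 := by
  have hX : 1 < v (algebraMap Fq[X] F X) := by
    have h1 : algebraMap (RatFunc Fq) F RatFunc.X⁻¹ = (algebraMap Fq[X] F X)⁻¹ := by
      rw [map_inv₀, IsScalarTower.algebraMap_apply Fq[X] (RatFunc Fq) F, RatFunc.algebraMap_X]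
    rw [h1, map_inv₀] at hv
    have h2 : algebraMap Fq[X] F X ≠ 0 := by
      rw [IsScalarTower.algebraMap_apply Fq[X] (RatFunc Fq) F, RatFunc.algebraMap_X, Ne,
        map_eq_zero_iff _ (algebraMap (RatFunc Fq) F).injective]
      exact RatFunc.X_ne_zero
    have h3 : 0 < v (algebraMap Fq[X] F X) := zero_lt_iff.mpr ((Valuation.ne_zero_iff v).mpr h2)
    exact (inv_lt_one₀ h3).mp hv
  have hcC : ∀ c : Fq, algebraMap Fq[X] F (C c) = algebraMap (RatFunc Fq) F (RatFunc.C c) := by
    intro c
    rw [IsScalarTower.algebraMap_apply Fq[X] (RatFunc Fq) F, RatFunc.algebraMap_C]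
  have hc' : ∀ c : Fq, v (algebraMap Fq[X] F (C c)) ≤ 1 := by
    intro c; rw [hcC]; exact hc c
  have hc1 : ∀ c : Fq, c ≠ 0 → v (algebraMap Fq[X] F (C c)) = 1 := by
    intro c h0
    refine le_antisymm (hc' c) ?_
    by_contra hcon
    push Not at hcon
    have h1 : v (algebraMap Fq[X] F (C c)) * v (algebraMap Fq[X] F (C c⁻¹)) = 1 := by
      rw [← map_mul, ← map_mul, ← C_mul, mul_inv_cancel₀ h0, C_1, map_one, map_one]
    have h2 : v (algebraMap Fq[X] F (C c)) * v (algebraMap Fq[X] F (C c⁻¹)) < 1 := by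
      rw [mul_comm]
      exact (mul_le_of_le_one_left' (hc' _)).trans_lt hcon
    rw [h1] at h2
    exact lt_irrefl _ h2
  by_contra hdeg
  have ha0 : a ≠ 0 := by
    rintro rfl; exact hdeg natDegree_zero
  have h1 : algebraMap Fq[X] F a = ∑ i ∈ Finset.range a.natDegree,
      algebraMap Fq[X] F (C (a.coeff i)) * algebraMap Fq[X] F X ^ i +
      algebraMap Fq[X] F (C (a.coeff a.natDegree)) * algebraMap Fq[X] F X ^ a.natDegree := by
    conv_lhs => rw [a.as_sum_range_C_mul_X_pow]
    rw [Finset.sum_range_succ, map_add, map_sum]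
    simp only [map_mul, map_pow]
  have htop : v (algebraMap Fq[X] F (C (a.coeff a.natDegree)) *
      algebraMap Fq[X] F X ^ a.natDegree) = v (algebraMap Fq[X] F X) ^ a.natDegree := by
    rw [map_mul, hc1 _ (by rw [coeff_natDegree]; exact leadingCoeff_ne_zero.mpr ha0), one_mul,
      map_pow]
  have hlow : v (∑ i ∈ Finset.range a.natDegree,
      algebraMap Fq[X] F (C (a.coeff i)) * algebraMap Fq[X] F X ^ i) <
      v (algebraMap Fq[X] F X) ^ a.natDegree := by
    refine Valuation.map_sum_lt _ (pow_ne_zero _ (zero_lt_one.trans hX).ne') fun i hi => ?_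
    rw [map_mul, map_pow]
    refine (mul_le_of_le_one_left' (hc' _)).trans_lt ?_
    exact pow_lt_pow_right₀ hX (Finset.mem_range.1 hi)
  rw [h1, Valuation.map_add_eq_of_lt_right v (hlow.trans_eq htop.symm), htop] at ha
  exact absurd (one_lt_pow₀ hX hdeg) (not_lt.mpr ha)

theorem taskI : TaskI := by
  intro Fq _ _ p _ _ F _ _ _ _ _ _
  classical
  obtain ⟨v, hv, hvc⟩ := exists_place Fq F
  refine ⟨(WithZero.unitsWithZeroEquiv (α := Multiplicative ℤ)).toMonoidHom.comp
    (Units.map (v : F →* ℤᵐ⁰)), ?_⟩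
  intro x hxint hx
  have hp : p.Prime := Fact.out
  -- all conjugates have valuation one
  have hconj : ∀ σ : F ≃ₐ[RatFunc Fq] F, v (σ x) = 1 := by
    intro σ
    have h1 := hx σ
    simp only [MonoidHom.comp_apply, MulEquiv.coe_toMonoidHom] at h1
    have h2 := (MulEquiv.map_eq_one_iff _).mp h1
    have h3 := congrArg Units.val h2
    exact h3
  -- the coefficients of the minimal polynomial
  have hxK : IsIntegral (RatFunc Fq) (x : F) := hxint.tower_top
  have hmin := minpoly.isIntegrallyClosed_eq_field_fractions' (RatFunc Fq) hxint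
  set m := minpoly Fq[X] (x : F) with hm
  have hmm : m.Monic := minpoly.monic hxint
  have hsplit : ((minpoly (RatFunc Fq) (x : F)).map (algebraMap (RatFunc Fq) F)).Splits :=
    Normal.splits inferInstance (x : F)
  have hlift : (minpoly (RatFunc Fq) (x : F)).map (algebraMap (RatFunc Fq) F) ∈
      Polynomial.lifts (algebraMap v.valuationSubring F) := by
    have hprod := hsplit.eq_prod_roots_of_monic ((minpoly.monic hxK).map _)
    rw [hprod]
    refine Subsemiring.multiset_prod_mem _ _ ?_
    intro f hf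
    rw [Multiset.mem_map] at hf
    obtain ⟨y, hy, rfl⟩ := hf
    rw [mem_roots ((minpoly.monic hxK).map _).ne_zero, IsRoot.def, eval_map_algebraMap] at hy
    obtain ⟨σ, hσ⟩ := minpoly.exists_algEquiv_of_root' hxK.isAlgebraic hy
    have hyv : v y ≤ 1 := by rw [← hσ, hconj σ]
    rw [Polynomial.lifts_iff_coeff_lifts]
    intro n
    rw [coeff_sub, coeff_C]
    have hX : (X : F[X]).coeff n ∈ Set.range (algebraMap v.valuationSubring F) := by
      rw [coeff_X]
      split_ifs
      · exact ⟨1, map_one _⟩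
      · exact ⟨0, map_zero _⟩
    obtain ⟨a, ha⟩ := hX
    split_ifs with hn
    · exact ⟨a - ⟨y, hyv⟩, by rw [map_sub, ha]; rfl⟩
    · exact ⟨a, by rw [ha, sub_zero]⟩
  have hcoef : ∀ n, (m.coeff n).natDegree = 0 := by
    intro n
    refine val_poly v hv hvc _ ?_
    rw [Polynomial.lifts_iff_coeff_lifts] at hlift
    obtain ⟨a, ha⟩ := hlift n
    rw [hmin, Polynomial.map_map, ← IsScalarTower.algebraMap_eq, coeff_map] at ha
    rw [← ha]
    exact a.2
  -- `x` is algebraic over `Fq`
  let _ : Algebra Fq F := ((algebraMap Fq[X] F).comp C).toAlgebra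
  have halg : IsIntegral Fq (x : F) := by
    refine ⟨m.map (evalRingHom 0), hmm.map _, ?_⟩
    have h1 : aeval (x : F) m = 0 := minpoly.aeval _ _
    rw [eval₂_map]
    rw [aeval_def, eval₂_eq_sum_range] at h1
    rw [eval₂_eq_sum_range, ← h1]
    refine Finset.sum_congr rfl fun n _ => ?_
    congr 1
    have h2 := eq_C_of_natDegree_eq_zero (hcoef n)
    have h3 : (evalRingHom (0 : Fq)) (m.coeff n) = (m.coeff n).coeff 0 := by
      rw [coe_evalRingHom, ← coeff_zero_eq_eval_zero]
    rw [RingHom.comp_apply, h3]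
    conv_rhs => rw [h2]
    rfl
  -- the finite field generated by `x`
  let E := IntermediateField.adjoin Fq {(x : F)}
  have hEfd : FiniteDimensional Fq E := IntermediateField.adjoin.finiteDimensional halg
  have hEfin : Finite E := Module.finite_of_finite Fq
  let _ : Fintype E := Fintype.ofFinite E
  have hxE : (x : F) ∈ E := IntermediateField.mem_adjoin_simple_self Fq (x : F)
  refine ⟨Fintype.card E - 1, ?_, ?_⟩
  · have hcharE : CharP E p := charP_of_injective_algebraMap (algebraMap Fq E).injective p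
    have hd : p ∣ Fintype.card E := (CharP.cast_eq_zero_iff E p _).mp (Nat.cast_card_eq_zero E)
    have hpos : 0 < Fintype.card E := Fintype.card_pos
    rw [Nat.coprime_comm, Nat.Prime.coprime_iff_not_dvd hp]
    intro h
    have h1 := (Nat.dvd_sub_iff_right (by omega) hd).mp h
    exact hp.one_lt.ne' (Nat.dvd_one.mp h1)
  · have h1 : (⟨(x : F), hxE⟩ : E) ≠ 0 := by
      intro h
      exact x.ne_zero (congrArg Subtype.val h)
    have h2 := FiniteField.pow_card_sub_one_eq_one _ h1
    have h3 := congrArg (Subtype.val) h2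
    apply Units.ext
    rw [Units.val_pow_eq_pow_val, Units.val_one]
    exact h3

end main

end Pool.Agent.R891.GK
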