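import Pool.Agent.R360.GK.Tasks

/-!
# The coefficients of the Carlitz module
-/

set_option autoImplicit false

open Polynomial

namespace Pool.Agent.R891.GK

open Pool.Agent.R360.GK

section coeffs

variable (Fq : Type) [Field Fq] [Fintype Fq]

/-- the coefficients of `C_{T^n}` -/
noncomputable def cf : ℕ → ℕ → Fq[X]
  | 0, 0 => 1
  | 0, _ + 1 => 0
  | n + 1, 0 => X * cf n 0
  | n + 1, i + 1 => X * cf n (i + 1) + (cf n i) ^ Fintype.card Fq

lemma cf_zero_right (n : ℕ) : cf Fq n 0 = X ^ n := by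
  induction n with
  | zero => simp [cf]
  | succ n ih => rw [cf, ih, pow_succ']

lemma cf_gt (n i : ℕ) (h : n < i) : cf Fq n i = 0 := by
  have hq : Fintype.card Fq ≠ 0 := Fintype.card_ne_zero
  induction n generalizing i with
  | zero =>
    obtain ⟨j, rfl⟩ : ∃ j, i = j + 1 := ⟨i - 1, by omega⟩
    rfl
  | succ n ih =>
    obtain ⟨j, rfl⟩ : ∃ j, i = j + 1 := ⟨i - 1, by omega⟩
    rw [cf, ih _ (by omega), ih _ (by omega), zero_pow hq, mul_zero, add_zero]

lemma cf_self (n : ℕ) : cf Fq n n = 1 := by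
  induction n with
  | zero => simp [cf]
  | succ n ih => rw [cf, ih, cf_gt _ _ _ (by omega)]; simp

variable {Fq}

lemma frob_add {R : Type*} [CommRing R] [Algebra Fq R] (x y : R) :
    (x + y) ^ Fintype.card Fq = x ^ Fintype.card Fq + y ^ Fintype.card Fq :=
  map_add (FiniteField.frobeniusAlgHom Fq R) x y

lemma frob_sub {R : Type*} [CommRing R] [Algebra Fq R] (x y : R) :
    (x - y) ^ Fintype.card Fq = x ^ Fintype.card Fq - y ^ Fintype.card Fq :=
  map_sub (FiniteField.frobeniusAlgHom Fq R) x y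

lemma frob_sum {R : Type*} [CommRing R] [Algebra Fq R] {ι : Type*} (s : Finset ι) (f : ι → R) :
    (∑ i ∈ s, f i) ^ Fintype.card Fq = ∑ i ∈ s, f i ^ Fintype.card Fq :=
  map_sum (FiniteField.frobeniusAlgHom Fq R) f s

lemma frob_C (c : Fq) : (C c : Fq[X]) ^ Fintype.card Fq = C c := by
  rw [← C_pow, FiniteField.pow_card]

variable (Fq)

lemma cf_comm (n i : ℕ) : cf Fq n (i + 1) * (X ^ Fintype.card Fq ^ (i + 1) - X) =
    (cf Fq n i) ^ Fintype.card Fq - cf Fq n i := by
  have hq : Fintype.card Fq ≠ 0 := Fintype.card_ne_zero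
  induction n generalizing i with
  | zero =>
    cases i with
    | zero => simp [cf]
    | succ i => simp [cf, hq]
  | succ n ih =>
    cases i with
    | zero =>
      have h := ih 0
      rw [cf, cf, mul_pow]
      simp only [zero_add, pow_one] at h ⊢
      linear_combination X * h
    | succ i =>
      have h1 := ih (i + 1)
      have h2 := congrArg (· ^ Fintype.card Fq) (ih i)
      simp only [mul_pow] at h2
      rw [frob_sub, frob_sub, ← pow_mul, ← pow_succ] at h2
      rw [cf, cf, frob_add, mul_pow]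
      linear_combination X * h1 + h2

/-- the coefficients of `C_a` -/
noncomputable def ca (a : Fq[X]) (i : ℕ) : Fq[X] := a.sum fun n c => C c * cf Fq n i

lemma ca_eq (a : Fq[X]) (i : ℕ) :
    ca Fq a i = ∑ n ∈ Finset.range (a.natDegree + 1), C (a.coeff n) * cf Fq n i := by
  unfold ca
  rw [Polynomial.sum_over_range]
  intro n; simp

lemma ca_zero (a : Fq[X]) : ca Fq a 0 = a := by
  conv_rhs => rw [a.as_sum_range_C_mul_X_pow]
  rw [ca_eq]
  exact Finset.sum_congr rfl fun n _ => by rw [cf_zero_right]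

lemma ca_comm (a : Fq[X]) (i : ℕ) : ca Fq a (i + 1) * (X ^ Fintype.card Fq ^ (i + 1) - X) =
    (ca Fq a i) ^ Fintype.card Fq - ca Fq a i := by
  rw [ca_eq, ca_eq, frob_sum, Finset.sum_mul, ← Finset.sum_sub_distrib]
  refine Finset.sum_congr rfl fun n _ => ?_
  rw [mul_pow, frob_C, mul_assoc, cf_comm]
  ring

lemma ca_gt (a : Fq[X]) (i : ℕ) (h : a.natDegree < i) : ca Fq a i = 0 := by
  rw [ca_eq]
  refine Finset.sum_eq_zero fun n hn => ?_
  rw [cf_gt _ _ _ (by have := Finset.mem_range.1 hn; omega), mul_zero]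

lemma ca_self (a : Fq[X]) : ca Fq a a.natDegree = C a.leadingCoeff := by
  rw [ca_eq, Finset.sum_range_succ, cf_self, mul_one, Finset.sum_eq_zero, zero_add]
  · rfl
  · intro n hn
    rw [cf_gt _ _ _ (Finset.mem_range.1 hn), mul_zero]

/-- `P` divides the middle coefficients of `C_P` -/
lemma dvd_ca (P : Fq[X]) (hP : Irreducible P) (i : ℕ) (hi : i < P.natDegree) :
    P ∣ ca Fq P i := by
  induction i with
  | zero => rw [ca_zero]
  | succ i ih =>
    have h1 := ih (by omega)
    have h2 : P ∣ ca Fq P (i + 1) * (X ^ Fintype.card Fq ^ (i + 1) - X) := by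
      rw [ca_comm]
      exact dvd_sub (dvd_pow h1 Fintype.card_ne_zero) h1
    rcases hP.prime.dvd_or_dvd h2 with h | h
    · exact h
    · exfalso
      have h3 := hP.natDegree_dvd_of_dvd_X_pow_card_pow_sub_X (n := i + 1)
        (by rw [Nat.card_eq_fintype_card]; exact h)
      have := Nat.le_of_dvd (by omega) h3
      omega

end coeffs

section formula

variable {Fq : Type} [Field Fq] [Fintype Fq]
variable {F : Type} [Field F] [Algebra Fq[X] F]

lemma cT_iter (x : F) (N n : ℕ) (h : n ≤ N) : (cT Fq F)^[n] x =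
    ∑ i ∈ Finset.range (N + 1), algebraMap Fq[X] F (cf Fq n i) * x ^ Fintype.card Fq ^ i := by
  let _ : Algebra Fq F := ((algebraMap Fq[X] F).comp C).toAlgebra
  have hq : Fintype.card Fq ≠ 0 := Fintype.card_ne_zero
  induction n with
  | zero =>
    rw [Finset.sum_eq_single 0]
    · simp [cf]
    · intro i _ hi
      rw [cf_gt _ _ _ (by omega)]; simp
    · intro h; exact absurd (Finset.mem_range.2 (by omega)) h
  | succ n ih =>
    rw [Function.iterate_succ_apply', ih (by omega)]
    unfold cT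
    rw [frob_sum (Fq := Fq), Finset.mul_sum, Finset.sum_range_succ
      (fun i => (algebraMap Fq[X] F (cf Fq n i) * x ^ Fintype.card Fq ^ i) ^ Fintype.card Fq),
      Finset.sum_range_succ' (fun i => algebraMap Fq[X] F X *
        (algebraMap Fq[X] F (cf Fq n i) * x ^ Fintype.card Fq ^ i)),
      Finset.sum_range_succ' (fun i => algebraMap Fq[X] F (cf Fq (n + 1) i) *
        x ^ Fintype.card Fq ^ i)]
    have e1 : (algebraMap Fq[X] F (cf Fq n N) * x ^ Fintype.card Fq ^ N) ^ Fintype.card Fq = 0 := by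
      rw [cf_gt _ _ _ (by omega)]; simp [hq]
    rw [e1, add_zero]
    have e2 : ∀ i ∈ Finset.range N, algebraMap Fq[X] F (cf Fq (n + 1) (i + 1)) *
        x ^ Fintype.card Fq ^ (i + 1) = algebraMap Fq[X] F X *
        (algebraMap Fq[X] F (cf Fq n (i + 1)) * x ^ Fintype.card Fq ^ (i + 1)) +
        (algebraMap Fq[X] F (cf Fq n i) * x ^ Fintype.card Fq ^ i) ^ Fintype.card Fq := by
      intro i _
      rw [cf, map_add, map_mul, map_pow, mul_pow, ← pow_mul, ← pow_succ]
      ring
    rw [Finset.sum_congr rfl e2, Finset.sum_add_distrib]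
    have e3 : cf Fq (n + 1) 0 = X * cf Fq n 0 := rfl
    rw [e3, map_mul]
    ring

lemma carlitz_eq (a : Fq[X]) (x : F) : carlitz Fq F a x =
    ∑ i ∈ Finset.range (a.natDegree + 1), algebraMap Fq[X] F (ca Fq a i) *
      x ^ Fintype.card Fq ^ i := by
  unfold carlitz
  rw [Polynomial.sum_over_range]
  · rw [Finset.sum_congr rfl fun n hn => by
      rw [cT_iter x a.natDegree n (by have := Finset.mem_range.1 hn; omega)]]
    simp_rw [Finset.mul_sum]
    rw [Finset.sum_comm]
    refine Finset.sum_congr rfl fun i _ => ?_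
    rw [ca_eq, map_sum, Finset.sum_mul]
    refine Finset.sum_congr rfl fun n _ => ?_
    rw [map_mul]
    ring
  · intro n; simp

end formula

end Pool.Agent.R891.GK
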