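import Pool.Agent.R891.GK.E1

/-!
# The Carlitz cyclotomic field is a finite separable extension; the derivative of `lam`
-/

set_option autoImplicit false

open Polynomial

namespace Pool.Agent.R891.GK

open Pool.Agent.R360.GK

variable {Fq : Type} [Field Fq] [Fintype Fq]
variable {P : Fq[X]} {F : Type} [Field F] [Algebra Fq[X] F] [Algebra (RatFunc Fq) F]
  [IsScalarTower Fq[X] (RatFunc Fq) F] {lam : F}

lemma torsion_eq (h : IsCyclotomic Fq P F lam) :
    ∑ i ∈ Finset.range (P.natDegree + 1), algebraMap Fq[X] F (ca Fq P i) *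
      lam ^ Fintype.card Fq ^ i = 0 := by
  rw [← carlitz_eq]
  exact h.torsion

/-- the torsion polynomial -/
noncomputable def tp (P : Fq[X]) : (RatFunc Fq)[X] :=
  ∑ i ∈ Finset.range (P.natDegree + 1), C (algebraMap Fq[X] (RatFunc Fq) (ca Fq P i)) *
    X ^ Fintype.card Fq ^ i

lemma card_cast (R : Type*) [CommRing R] [Algebra Fq R] : ((Fintype.card Fq : ℕ) : R) = 0 := by
  have h : ((Fintype.card Fq : ℕ) : Fq) = 0 := Nat.cast_card_eq_zero Fq
  rw [← map_natCast (algebraMap Fq R), h, map_zero]

lemma tp_der (P : Fq[X]) : derivative (tp P) = C (algebraMap Fq[X] (RatFunc Fq) P) := by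
  unfold tp
  rw [derivative_sum, Finset.sum_eq_single 0]
  · simp [ca_zero]
  · intro i _ hi
    obtain ⟨j, rfl⟩ : ∃ j, i = j + 1 := ⟨i - 1, by omega⟩
    rw [derivative_C_mul, derivative_X_pow]
    have : ((Fintype.card Fq ^ (j + 1) : ℕ) : RatFunc Fq) = 0 := by
      push_cast
      rw [card_cast (Fq := Fq) (RatFunc Fq), zero_pow (by omega)]
    rw [this]
    simp
  · intro h; exact absurd (Finset.mem_range.2 (by omega)) h

lemma aeval_tp (h : IsCyclotomic Fq P F lam) : aeval lam (tp P) = 0 := by
  unfold tp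
  rw [map_sum]
  refine Eq.trans (Finset.sum_congr rfl fun i _ => ?_) (torsion_eq h)
  rw [map_mul, aeval_C, map_pow, aeval_X, ← IsScalarTower.algebraMap_apply]

lemma tp_sep (hP : P ≠ 0) : (tp P).Separable := by
  unfold Polynomial.Separable
  rw [tp_der]
  have hne : algebraMap Fq[X] (RatFunc Fq) P ≠ 0 := by
    rw [Ne, map_eq_zero_iff _ (IsFractionRing.injective Fq[X] (RatFunc Fq))]
    exact hP
  refine ⟨0, C (algebraMap Fq[X] (RatFunc Fq) P)⁻¹, ?_⟩
  rw [zero_mul, zero_add, ← C_mul, inv_mul_cancel₀ hne, C_1]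

theorem isSep (hP : P ≠ 0) (h : IsCyclotomic Fq P F lam) : IsSeparable (RatFunc Fq) lam :=
  (tp_sep hP).of_dvd (minpoly.dvd _ _ (aeval_tp h))

theorem finDim (hP : P ≠ 0) (h : IsCyclotomic Fq P F lam) : FiniteDimensional (RatFunc Fq) F := by
  have h1 : IsIntegral (RatFunc Fq) lam := (isSep hP h).isIntegral
  have h2 := IntermediateField.adjoin.finiteDimensional h1
  rw [h.gen] at h2
  exact Module.Finite.equiv IntermediateField.topEquiv.toLinearEquiv

theorem algSep (hP : P ≠ 0) (h : IsCyclotomic Fq P F lam) : Algebra.IsSeparable (RatFunc Fq) F := by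
  have h1 := (IntermediateField.isSeparable_adjoin_simple_iff_isSeparable _ _).mpr (isSep hP h)
  rw [h.gen] at h1
  exact Algebra.IsSeparable.of_algHom (RatFunc Fq) (⊤ : IntermediateField (RatFunc Fq) F)
    (IntermediateField.topEquiv (F := RatFunc Fq) (E := F)).symm.toAlgHom

/-- `lam` is integral -/
theorem lam_int (hP : P.Monic) (h : IsCyclotomic Fq P F lam) : IsIntegral Fq[X] lam := by
  have hq : 1 < Fintype.card Fq := Fintype.one_lt_card
  refine ⟨X ^ (Fintype.card Fq ^ P.natDegree) + ∑ i ∈ Finset.range P.natDegree,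
    C (ca Fq P i) * X ^ Fintype.card Fq ^ i, ?_, ?_⟩
  · refine monic_X_pow_add ?_
    refine (degree_sum_le _ _).trans_lt ?_
    rw [Finset.sup_lt_iff]
    · intro i hi
      refine (degree_C_mul_X_pow_le _ _).trans_lt ?_
      exact_mod_cast Nat.pow_lt_pow_right hq (Finset.mem_range.1 hi)
    · exact WithBot.bot_lt_coe _
  · have h1 := torsion_eq h
    rw [Finset.sum_range_succ, ca_self, hP.leadingCoeff, C_1, map_one, one_mul] at h1
    rw [eval₂_add, eval₂_X_pow, eval₂_finsetSum]
    simp only [eval₂_mul, eval₂_C, eval₂_X_pow]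
    rw [add_comm]
    exact h1

/-- the equation with `lam` cancelled -/
lemma torsion_div (h : IsCyclotomic Fq P F lam) :
    algebraMap Fq[X] F P + ∑ i ∈ Finset.range P.natDegree, algebraMap Fq[X] F (ca Fq P (i + 1)) *
      lam ^ (Fintype.card Fq ^ (i + 1) - 1) = 0 := by
  have hq : 0 < Fintype.card Fq := Fintype.card_pos
  have h1 := torsion_eq h
  rw [Finset.sum_range_succ', ca_zero, pow_zero, pow_one] at h1
  have h2 : lam * (algebraMap Fq[X] F P + ∑ i ∈ Finset.range P.natDegree,
      algebraMap Fq[X] F (ca Fq P (i + 1)) * lam ^ (Fintype.card Fq ^ (i + 1) - 1)) = 0 := by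
    rw [← h1, mul_add, Finset.mul_sum, add_comm, mul_comm lam]
    congr 1
    refine Finset.sum_congr rfl fun i _ => ?_
    have : Fintype.card Fq ^ (i + 1) = (Fintype.card Fq ^ (i + 1) - 1) + 1 := by
      have := Nat.pow_pos hq (n := i + 1)
      omega
    conv_rhs => rw [this, pow_succ]
    ring
  exact (mul_eq_zero.mp h2).resolve_left h.ne_zero

section der

variable (D : Derivation ℤ F F)

lemma D_const (p : ℕ) [Fact p.Prime] [CharP F p] (c : Fq) :
    D (algebraMap Fq[X] F (C c)) = 0 := by
  have h1 : c = (c ^ (Fintype.card Fq / p)) ^ p := by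
    have hc : CharP Fq p := by
      have : Function.Injective ((algebraMap Fq[X] F).comp C) := RingHom.injective _
      exact (RingHom.charP _ this p)
    have hd : p ∣ Fintype.card Fq := by
      have := Nat.cast_card_eq_zero Fq
      exact (CharP.cast_eq_zero_iff Fq p _).mp this
    rw [← pow_mul, Nat.div_mul_cancel hd, FiniteField.pow_card]
  rw [h1, C_pow, map_pow, Derivation.leibniz_pow]
  simp

/-- the derivation of a polynomial in `T` -/
lemma D_poly (p : ℕ) [Fact p.Prime] [CharP F p] (hT : D (algebraMap Fq[X] F X) = 1) (a : Fq[X]) :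
    D (algebraMap Fq[X] F a) = algebraMap Fq[X] F (derivative a) := by
  induction a using Polynomial.induction_on' with
  | add a b ha hb => rw [map_add, map_add, ha, hb, derivative_add, map_add]
  | monomial n c =>
    rw [← C_mul_X_pow_eq_monomial, map_mul, map_pow, Derivation.leibniz, D_const D p,
      Derivation.leibniz_pow, hT]
    simp only [smul_eq_mul, mul_one, mul_zero, add_zero, nsmul_eq_mul, derivative_C_mul,
      derivative_X_pow, map_mul, map_pow, map_natCast]

lemma D_qpow (p : ℕ) [Fact p.Prime] [CharP F p] (x : F) (i : ℕ) :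
    D (x ^ Fintype.card Fq ^ (i + 1)) = 0 := by
  let _ : Algebra Fq F := ((algebraMap Fq[X] F).comp C).toAlgebra
  rw [Derivation.leibniz_pow]
  have : ((Fintype.card Fq ^ (i + 1) : ℕ) : F) = 0 := by
    push_cast
    rw [card_cast (Fq := Fq) F, zero_pow (by omega)]
  rw [nsmul_eq_mul, this, zero_mul]

/-- the derivative of `lam` -/
theorem D_lam (p : ℕ) [Fact p.Prime] [CharP F p] (hT : D (algebraMap Fq[X] F X) = 1)
    (h : IsCyclotomic Fq P F lam) :
    algebraMap Fq[X] F P * D lam = -lam * (algebraMap Fq[X] F (derivative P) +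
      ∑ i ∈ Finset.range P.natDegree, algebraMap Fq[X] F (derivative (ca Fq P (i + 1))) *
        lam ^ (Fintype.card Fq ^ (i + 1) - 1)) := by
  have hq : 0 < Fintype.card Fq := Fintype.card_pos
  have h1 := congrArg D (torsion_eq h)
  rw [map_zero, map_sum, Finset.sum_range_succ', ca_zero, pow_zero, pow_one,
    Derivation.leibniz, D_poly D p hT] at h1
  have h2 : ∀ i ∈ Finset.range P.natDegree, D (algebraMap Fq[X] F (ca Fq P (i + 1)) *
      lam ^ Fintype.card Fq ^ (i + 1)) = lam * (algebraMap Fq[X] F (derivative (ca Fq P (i + 1))) *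
        lam ^ (Fintype.card Fq ^ (i + 1) - 1)) := by
    intro i _
    rw [Derivation.leibniz, D_qpow (Fq := Fq) D p, D_poly D p hT]
    simp only [smul_eq_mul, mul_zero, zero_add]
    have : Fintype.card Fq ^ (i + 1) = (Fintype.card Fq ^ (i + 1) - 1) + 1 := by
      have := Nat.pow_pos hq (n := i + 1)
      omega
    conv_lhs => rw [this, pow_succ]
    ring
  rw [Finset.sum_congr rfl h2, ← Finset.mul_sum] at h1
  simp only [smul_eq_mul] at h1
  linear_combination h1

end der

end Pool.Agent.R891.GK
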